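import Pool.Agent.Work.MP_f473e4_nt.Final

set_option autoImplicit false

/-!
# Runs of consecutive integers with equally many divisors are unbounded

`M k` is the maximal length of a run of consecutive positive integers with exactly `k` divisors
(a supremum in `ℕ∞`, so no convention about unbounded sets is used). `M k` is finite for every
`k ≥ 1`, the function `M` is unbounded, and runs of every length exist beyond every bound.
-/

namespace Pool.Agent.Results.MP_f473e4_nt.RunLengthUnbounded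

/-- The maximal length of a run of consecutive positive integers each having exactly `k`
divisors. -/
noncomputable def M (k : ℕ) : ℕ∞ :=
  ⨆ L ∈ {L : ℕ | ∃ n : ℕ, 0 < n ∧ ∀ j < L, (n + j).divisors.card = k}, (L : ℕ∞)

private theorem run_lt {k L n : ℕ} (hn : 0 < n) (h : ∀ j < L, (n + j).divisors.card = k) :
    L ≤ 2 ^ k := by
  by_contra hL
  have h2 : 0 < 2 ^ k := by positivity
  obtain ⟨j, hj, hd⟩ : ∃ j < 2 ^ k, 2 ^ k ∣ n + j := by
    refine ⟨(2 ^ k - n % 2 ^ k) % 2 ^ k, Nat.mod_lt _ h2, ?_⟩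
    have h3 : n % 2 ^ k < 2 ^ k := Nat.mod_lt _ h2
    have h4 : (n + (2 ^ k - n % 2 ^ k) % 2 ^ k) % 2 ^ k = 0 := by
      rw [Nat.add_mod, Nat.mod_mod]
      rcases Nat.eq_zero_or_pos (n % 2 ^ k) with h0 | h0
      · rw [h0]
        simp
      · rw [Nat.mod_eq_of_lt (by omega : 2 ^ k - n % 2 ^ k < 2 ^ k),
          Nat.add_sub_cancel' h3.le, Nat.mod_self]
    exact Nat.dvd_of_mod_eq_zero h4
  have h5 := h j (by omega)
  have h6 : (2 ^ k).divisors ⊆ (n + j).divisors := Nat.divisors_subset_of_dvd (by omega) hd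
  have h7 := Finset.card_le_card h6
  rw [Nat.divisors_prime_pow Nat.prime_two, Finset.card_map, Finset.card_range] at h7
  omega

theorem result : (∀ k : ℕ, 0 < k → M k ≠ ⊤) ∧
    (∀ C : ℕ, ∃ k : ℕ, 0 < k ∧ (C : ℕ∞) < M k) ∧
    ∀ L N : ℕ, ∃ n : ℕ, N < n ∧ ∀ j < L, (n + j).divisors.card = n.divisors.card := by
  have key : ∀ L : ℕ, ∃ n k : ℕ, 0 < n ∧ ∀ j < L, (n + j).divisors.card = k := by
    intro L
    obtain ⟨n, k, hn, h⟩ :=
      Pool.Agent.Work.MP_f473e4_nt.final_run (max L 2) (le_max_right _ _)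
    exact ⟨n, k, hn, fun i hi => h i (lt_of_lt_of_le hi (le_max_left _ _))⟩
  refine ⟨fun k _ => ?_, fun C => ?_, fun L N => ?_⟩
  · have h : M k ≤ ((2 ^ k : ℕ) : ℕ∞) := by
      refine iSup₂_le fun L hL => ?_
      obtain ⟨n, hn, hL⟩ := hL
      exact_mod_cast run_lt hn hL
    exact ne_top_of_le_ne_top (ENat.natCast_ne_top _) h
  · obtain ⟨n, k, hn, h⟩ := key (C + 1)
    refine ⟨k, ?_, ?_⟩
    · rw [← h 0 (by omega)]
      exact Finset.card_pos.2 (Nat.nonempty_divisors.2 (by omega))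
    · have h1 : ((C + 1 : ℕ) : ℕ∞) ≤ M k :=
        le_iSup₂_of_le (C + 1) ⟨n, hn, h⟩ le_rfl
      refine lt_of_lt_of_le ?_ h1
      exact_mod_cast Nat.lt_succ_self C
  · obtain ⟨n, k, hn, h⟩ := key (L + N + 1)
    refine ⟨n + N, by omega, fun j hj => ?_⟩
    rw [h N (by omega), add_assoc, h (N + j) (by omega)]

end Pool.Agent.Results.MP_f473e4_nt.RunLengthUnbounded
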